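import Pool.Agent.Lib.MP_ab8df0_nt.B.Auto2
import Pool.Agent.Lib.MP_ab8df0_nt.P.N3D

/-! Constants, proof tree and the result of the computation. -/

set_option maxRecDepth 100000

namespace Pool.Agent.Lib.MP_ab8df0_nt.T.B63a

open Pool.Agent.Lib.MP_ab8df0_nt.B Pool.Agent.Lib.MP_ab8df0_nt.P

def dl0 : List ℤ × ℕ := ([3, 3, 3, 3, 3], 1)

def vs : Cs := [([0, 1], 1), ([], 1), ([], 1), ([], 1), 
  ([4, 0, 0, 0, 0, 1], 4),
  ([0, 32, 0, 0, 0, 0, 16, 0, 0, 0, 0, 2], 1),
  ([64, 32, 0, 0, 0, 0, 16, 0, 0, 0, 0, 2], 1),
  ([4, 0, 0, 2], 1),
  ([0, 64, 0, 0, 0, 0, 32, 0, 0, 0, 0, 4], 1),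
  ([-16384, 0, 16384, -16384, 4096, 8192, 12288, 10240, -4096, -2048, 2048, 3072, -512, -1024, 256], 1),
  ([256, -64, 0, 0, 0, -32, -64, 0, 0, 0, -8, -4], 1),
  ([0, 0, 0, -16384, 16384, 0, 24576, 0, -4096, 4096, 0, 6144, 0, -1024, 1024], 1),
  ([-75497472, 226492416, -37748736, -37748736, 37748736, 18874368, -169869312, 56623104, 66060288, -37748736, -18874368, -18874368, 16515072, 2359296, -7077888], 1),
  ([3], 1),
  ([4096, 0, -2048, 0, 0, 0, 0, -512], 1),
  ([0, 1024, 0, 0, 0, 0, 0, 0, 0, 0, 0, 64], 1),
  ([-4718592, 9437184, -4718592, -3932160, 3932160, 4325376, -8650752, 4325376, 3145728, -3145728, 393216, -786432, 393216, 344064, -344064], 1)]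

def M (t0 : ℤ) (k0 : ℕ) : List Hyp := [
  .disc 1 t0 k0,
  .eq 2 (.add (.mul (.num 2) (.inv (.add (.num 1) (.mul (.var 1) (.var 4))))) (.neg (.num 1))),
  .pw 3 2 (.add (.num 1) (.mul (.num 3) (.sq (.var 2)))),
  .cls (.add (.var 3) (.neg (.num 1))) [5, 6, 7, 8, 9, 10, 11, 12, 13, 14, 15, 16],
  .out (.add (.var 3) (.neg (.num 1))) [5, 6, 7, 8, 9, 10, 11, 12, 13, 14, 15, 16] [false, false, false, false, false, false, true, false, false, false, true, true]]

def k0 : Cut := ⟨[0], [], [[true, false, false, false, false, false, false, false, false, false, false, false, false]], [[false, true, false, false, false, false, false, false, false, false, false, false, false], [false, false, false, false, true, false, false, false, false, false, false, false, false], [false, false, false, false, false, true, false, false, false, false, false, false, false], [false, true, true, false, false, false, false, false, false, false, false, false, false], [true, false, false, false, true, true, false, false, false, false, false, true, false], [true, false, true, false, false, false, false,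 false, true, false, false, false, false], [true, true, true, false, false, true, false, false, false, true, false, false, false], [true, false, true, false, true, false, false, false, true, false, false, true, true], [false, false, false, false, false, false, false, true, false, false, false, false, false], [true, false, false, true, true, false, false, false, false, false, false, false, false], [true, true, true, false, false, false, true, false, false, false, false, false, false], [true, false, true, false, false, true, true, false, false, true, true, false, false]], [[true, false, false, false, false, false, false, false, false, false, false, false, false], [false, true, false, false, false, false, false, false, false, false, false, false, false], [false, true, false, false, true, false, false, false, false, false, false, false, false], [true, false, true, false, false, false, false, false, false, false, true, false, false], [false, false, true, false, false, false, false, false, false, false, false, false, false], [false, false, false, true, false, false, false,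 false, false, false, false, false, false], [true, false, false, false, true, false, false, false, false, false, false, true, false], [false, false, false, false, false, false, false, false, false, true, false, false, false], [true, true, false, false, true, false, true, false, false, false, false, false, false], [true, false, false, true, true, false, false, true, false, false, false, false, false], [true, true, false, false, true, false, false, true, false, false, false, true, true], [true, false, true, true, false, true, false, false, false, false, false, false, false], [true, false, false, true, false, true, true, false, true, false, false, false, false]]⟩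

def A : List AH := [
  ]

theorem auto : (baseOk 3 vs && A.all (AH.ok FDN3 3 vs)) = true := by decide +kernel

def r0_0 : Tree := .set 4 [[ce (-2) 136 1 1 0x1]] (.set 5 [[]] (.set 6 [[]] (.set 7 [[]] (.set 8 [[]] (.set 9 [[]] (.set 10 [[]] (.set 11 [[]] (.set 12 [[]] (.set 13 [[]] (.set 14 [[]] (.set 15 [[]] (.set 16 [[]] (.piv [5, 6, 7, 8, 9, 10, 11, 12, 13, 14, 15, 16] [[ce 0 136 1 0 0x0], [ce (-3) 136 1 1 0x1], [ce (-1) 136 1 1 0x1], [ce (-4) 136 1 8 0x80], [ce (-7) 136 5 15 0x692595118c56ae698eb], [ce (-4) 136 5 15 0x592abd92abd94e64a8e], [ce (-8) 136 5 15 0x6a35fcdfea37d29111c], [ce (-12) 136 5 15 0x79f81cafa4f654d7882], [ce 0 136 1 1 0x1], [ce (-6) 136 5 15 0x335eb0a4cdb5a36af39], [ce (-6) 136 5 13 0x1d000006800006000], [ce (-10) 136 5 14 0x12b0923a122a86690c]] (.disc 17 (.split 17 (.set 18 [[ce 0 136 1 1 0x1]] (.oroot 19 [[]] [(ce 0 136 4 12 0x4000070000a0, ce (-2) 136 4 11 0x80000000001)] (.dead 20 22 [[]] [false, false, false, false, false, false, false, false, true, false, false, false] [ce 0 136 4 15 0x1c654056d4ed0e1]))) (.split 17 (.set 18 [[ce 0 136 4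 6 0xb0000b]] (.oroot 19 [[]] [(ce 0 136 5 12 0x580000540000180, ce (-2) 136 5 11 0x18000016000019)] (.conc 20 22 21 [[]] [ce (-23) 136 5 15 0x731a9d08f8581aadade]))) (.set 18 [[ce 0 136 5 11 0x3800002200001f]] (.oroot 19 [[]] [(ce 0 136 5 12 0xe80000440000300, ce (-2) 136 5 11 0x10000012000011)] (.dead 20 22 [[]] [false, false, false, false, false, false, true, false, false, false, true, false] [ce (-14) 136 5 15 0x63aea42c8f48d2c4898])))))))))))))))))))

theorem r0 : run FDN3.ds FDN3.es [[ce 0 136 64 1 0xaaaaaaaaaaaaaaab]] vs.length (fullH 3 vs (M 0 0) A) r0_0 = true := by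
  decide +kernel

theorem relT {K : Type} [Field K] [NumberField K] {a : K} {pl : List (Place K)} {ph : List (K →+* ℝ)}
    {w : List (IsDedekindDomain.HeightOneSpectrum (NumberField.RingOfIntegers K))}
    (hP : Pack K FDN3 a pl ph w) : (4 * cval a vs 4) = ((a * ((((a) ^ 2)) ^ 2)) + 4) := by
  have h : ((((4 : ℤ) : K) * cval a vs 4) + (-(((cval a vs 0 * ((((cval a vs 0) ^ 2)) ^ 2)) + ((4 : ℤ) : K))))) = 0 :=
    hP.rel vs (.add (.mul (.num 4) (.var 4)) (.neg (.add (.mul (.var 0) (.sq (.sq (.var 0)))) (.num 4)))) (by decide +kernel)
  have h0 : cval a vs 0 = a := by simp [cval, vs, ev]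
  try rw [h0] at h
  try push_cast at h
  linear_combination h

theorem relC {K : Type} [Field K] [NumberField K] {a : K} {pl : List (Place K)} {ph : List (K →+* ℝ)}
    {w : List (IsDedekindDomain.HeightOneSpectrum (NumberField.RingOfIntegers K))}
    (hP : Pack K FDN3 a pl ph w) : (cval a vs 4 * ((cval a vs 4) ^ 2)) = 2 := by
  have h : ((cval a vs 4 * ((cval a vs 4) ^ 2)) + (-(((2 : ℤ) : K)))) = 0 :=
    hP.rel vs (.add (.mul (.var 4) (.sq (.var 4))) (.neg (.num 2))) (by decide +kernel)
  have h0 : cval a vs 0 = a := by simp [cval, vs, ev]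
  try rw [h0] at h
  try push_cast at h
  linear_combination h

theorem core {K : Type} [Field K] [NumberField K] {a : K} {pl : List (Place K)} {ph : List (K →+* ℝ)}
    {w : List (IsDedekindDomain.HeightOneSpectrum (NumberField.RingOfIntegers K))}
    (hP : Pack K FDN3 a pl ph w) {G : Prop} (t g X : K)
    (hdisc : Q2 0 (t - ((0 : ℤ) : K)))
    (hG : g = ((2 * ((1 + (t * cval a vs 4)))⁻¹) - 1))
    (hX : X ^ 5 = (1 + (3 * ((g) ^ 2))))
    (hcls : ∀ v : IsDedekindDomain.HeightOneSpectrum (NumberField.RingOfIntegers K), ((30 : ℕ) : NumberField.RingOfIntegers K) ∉ v.asIdeal →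
      ∃ k : ℤ, v.valuation K (X - 1) = WithZero.exp (2 * k))
    (hclsre : ∀ i ∈ [0], ∀ φ, ph[i]? = some φ → 0 < φ (X - 1))
    (hout0 : IsSquare ((X - 1) * (ev a dl0.1 / (dl0.2 : K))) → G) :
    G := by
  refine hP.cover (fr := [t, g, X]) (M := M) (cs := [[ce 0 136 64 1 0xaaaaaaaaaaaaaaab]]) rfl auto
    (l := [(0, 0)]) (by decide) ?_ hdisc fun tq kq hq => ?_
  · exact List.forall_mem_cons.2 ⟨⟨_, r0⟩, fun _ h => absurd h List.not_mem_nil⟩
  · refine List.forall_mem_cons.2 ⟨?_, List.forall_mem_cons.2 ⟨?_, List.forall_mem_cons.2 ⟨?_, List.forall_mem_cons.2 ⟨?_, List.forall_mem_cons.2 ⟨?_, fun _ h => absurd h List.not_mem_nil⟩⟩⟩⟩⟩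
    · exact hq
    · show g = ((((2 : ℤ) : K) * ((((1 : ℤ) : K) + (t * cval a vs 4)))⁻¹) + (-(((1 : ℤ) : K))))
      try push_cast
      linear_combination hG
    · show X ^ 5 = (((1 : ℤ) : K) + (((3 : ℤ) : K) * ((g) ^ 2)))
      try push_cast
      linear_combination hX
    · exact fun h0 => hP.span_cut (nf := 3) (vs := vs) (x := (X + (-(((1 : ℤ) : K))))) (fr := [t, g, X]) rfl k0 (by decide +kernel) h0 ((by push_cast; ring : (X + (-(((1 : ℤ) : K)))) = (X - 1)) ▸ hcls) ((by push_cast; ring : (X + (-(((1 : ℤ) : K)))) = (X - 1)) ▸ hclsre) (fun _ h => absurd h List.not_mem_nil)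
    · exact fun h0 => hout0 ((by push_cast; ring : (X + (-(((1 : ℤ) : K)))) = (X - 1)) ▸ hP.out (nf := 3) (vs := vs) (x := (X + (-(((1 : ℤ) : K))))) (fr := [t, g, X]) rfl dl0 ([-78656, -78080, -76928, -77744, -77456, -16736, -16472, -16328, -16436, -16424, -1280, -1262, -1250, -1259, -1259], 36238786560) (by decide +kernel) h0)

end Pool.Agent.Lib.MP_ab8df0_nt.T.B63a
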